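import Mathlib
import Pool.Agent.N293.BT.Ana

/-!
# MP_e84edf_an, Q1: a negative answer

Question: if `T_Φ` is subnormal and `Φ = B Φ*` for a finite Blaschke-Potapov product `B`, is `T_Φ`
normal or analytic?  No.  On `H²_{ℂ²}` take `B(z) = z I` (a scalar inner function) and

  `Φ(z) = [[0, 4 z̄], [4 z², 3 (1 + z)]]`.

`T_Φ = 3 + 5 W`, `W = T_Θ` with `Θ = (Φ - 3) / 5` unitary-valued; with `g = (0, 1)` one has
`W* W = 1 - (16/25) g ⊗ g` and `W* g = 0`, which makes `W` (hence `T_Φ`) subnormal and not normal;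
the entry `4 z̄` makes `Φ` not analytic.

The direct sum `diag(z + z̄, z)`, with `B = diag(1, z²)`, is a simpler example of the same kind, but
its Toeplitz operator is the sum of a normal and an analytic one. For the `Φ` above that is excluded
too: `T_Φ` is not unitarily equivalent to `N ⊕ T_F` with `N` normal and `F ∈ H^∞_{M_k}`.
-/

set_option autoImplicit false
open scoped InnerProductSpace ComplexConjugate ENNReal Matrix
open Filter Topology MeasureTheory AddCircle
open Pool.Agent.Helper917.Hardy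
open Pool.Agent.H612R3.BpDefs
open Pool.Agent.N293.BT

namespace Pool.Agent.Results.MP_e84edf_an.NeitherNormalNorAnalytic

theorem result :
    ∃ Φ : Circ → Matrix (Fin 2) (Fin 2) ℂ, ∃ B : ℂ → Matrix (Fin 2) (Fin 2) ℂ,
      (∀ t, Φ t = !![0, 4 * conj (fourier 1 t : ℂ);
        4 * (fourier 1 t : ℂ) ^ 2, 3 * (1 + (fourier 1 t : ℂ))]) ∧
      (∀ w : ℂ, B w = w • 1) ∧
      IsLinfty Φ ∧ IsBlaschkePotapov B ∧
      (∀ t, Φ t = B (fourier 1 t) * (Φ t)ᴴ) ∧
      ¬ IsHinfty Φ ∧
      (∃! T : HardySp 2 →L[ℂ] HardySp 2, IsToeplitz Φ T) ∧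
      ∀ T : HardySp 2 →L[ℂ] HardySp 2, IsToeplitz Φ T →
        IsSubnormalOp T ∧ ¬ IsNormalOp T ∧ ¬ IsNormalPlusAnalytic T :=
  ⟨Phi, BB, fun _ => rfl, fun _ => rfl, phi_linfty, bb_bp, phi_eq, not_hinfty,
    existsUnique_T Phi phi_linfty,
    fun T hT => ⟨subnormal T hT, not_normal T hT, not_split T hT⟩⟩

end Pool.Agent.Results.MP_e84edf_an.NeitherNormalNorAnalytic
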